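import Pool.Agent.KACG.Slopes

/-!
# KACG, row S_ZER: zeros of the discriminant give eigenfunctions
-/

open scoped ComplexConjugate ContDiff

noncomputable section

namespace Pool.Agent.KACG.H65

/-- solutions are smooth -/
theorem smooth_of_isSol {V : ℝ → ℝ} (hV : ContDiff ℝ ∞ V) {E : ℂ} {u : ℝ → ℂ}
    (hu : IsSol V E u) : ContDiff ℝ ∞ u := by
  obtain ⟨h1, h2⟩ := hu
  have hdd : deriv (deriv u) = fun s => (((V s : ℝ) : ℂ) - E) * u s := by
    funext s
    exact (h2 s).deriv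
  have hVc : ContDiff ℝ ∞ fun s => ((V s : ℝ) : ℂ) - E :=
    (Complex.ofRealCLM.contDiff.comp hV).sub contDiff_const
  have hd1 : Differentiable ℝ u := fun s => (h1 s).differentiableAt
  have hd2 : Differentiable ℝ (deriv u) := fun s => (h2 s).differentiableAt
  have key : ∀ n : ℕ, ContDiff ℝ n u := by
    intro n
    induction n with
    | zero => exact contDiff_zero.2 hd1.continuous
    | succ n ih =>
      have h3 : ContDiff ℝ n (deriv (deriv u)) := by
        rw [hdd]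
        exact (hVc.of_le (by exact_mod_cast le_top)).mul ih
      have h4 : ContDiff ℝ (n + 1) (deriv u) :=
        contDiff_succ_iff_deriv.2 ⟨hd2, by simp, h3⟩
      have h5 : ContDiff ℝ n (deriv u) := h4.of_le (by exact_mod_cast Nat.le_succ n)
      have h6 : ContDiff ℝ (n + 1) u := contDiff_succ_iff_deriv.2 ⟨hd1, by simp, h5⟩
      exact_mod_cast h6
  exact contDiff_infty.2 key

/-- combinations of solutions -/
theorem isSol_comb {V : ℝ → ℝ} {E : ℂ} {u v : ℝ → ℂ} (hu : IsSol V E u) (hv : IsSol V E v)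
    (a b : ℂ) : (∀ s, HasDerivAt (fun s => a * u s + b * v s) (a * deriv u s + b * deriv v s) s) ∧
      IsSol V E fun s => a * u s + b * v s := by
  have h1 : ∀ s, HasDerivAt (fun s => a * u s + b * v s) (a * deriv u s + b * deriv v s) s :=
    fun s => ((hu.1 s).const_mul a).add ((hv.1 s).const_mul b)
  have h2 : deriv (fun s => a * u s + b * v s) = fun s => a * deriv u s + b * deriv v s := by
    funext s
    exact (h1 s).deriv
  refine ⟨h1, ?_, ?_⟩
  · intro s
    rw [h2]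
    exact h1 s
  · intro s
    rw [h2]
    have h3 := ((hu.2 s).const_mul a).add ((hv.2 s).const_mul b)
    have h4 : a * ((((V s : ℝ) : ℂ) - E) * u s) + b * ((((V s : ℝ) : ℂ) - E) * v s) =
        (((V s : ℝ) : ℂ) - E) * (a * u s + b * v s) := by ring
    rw [h4] at h3
    exact h3

/-- translates of solutions -/
theorem isSol_shift {V : ℝ → ℝ} {E : ℂ} {L : ℝ} (hp : Function.Periodic V L) {u : ℝ → ℂ}
    (hu : IsSol V E u) : (∀ s, HasDerivAt (fun s => u (s + L)) (deriv u (s + L)) s) ∧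
      IsSol V E fun s => u (s + L) := by
  have h1 : ∀ s, HasDerivAt (fun s => u (s + L)) (deriv u (s + L)) s :=
    fun s => (hu.1 (s + L)).comp_add_const s L
  have h2 : deriv (fun s => u (s + L)) = fun s => deriv u (s + L) := by
    funext s
    exact (h1 s).deriv
  refine ⟨h1, ?_, ?_⟩
  · intro s
    rw [h2]
    exact h1 s
  · intro s
    rw [h2]
    have h3 := (hu.2 (s + L)).comp_add_const s L
    rw [hp s] at h3
    exact h3

/-- row S_ZER -/
theorem s_zer (vol : VolStmt) (uni : UniStmt) : ZerStmt := by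
  intro L V E hL hV hVp hd
  obtain ⟨y₁, hy₁⟩ : ∃ y₁ : ℝ → ℂ, y₁ = sol V (E : ℂ) f1 := ⟨_, rfl⟩
  obtain ⟨y₂, hy₂⟩ : ∃ y₂ : ℝ → ℂ, y₂ = sol V (E : ℂ) f2 := ⟨_, rfl⟩
  have hf1 : f1 = fun s : ℝ => (1 : ℂ) + 0 * (s : ℂ) := by
    funext s
    simp [f1]
  have hf2 : f2 = fun s : ℝ => (0 : ℂ) + 1 * (s : ℂ) := by
    funext s
    simp [f2]
  obtain ⟨a1, a2, a3, -⟩ := vol V hV.continuous (E : ℂ) 1 0
  obtain ⟨b1, b2, b3, -⟩ := vol V hV.continuous (E : ℂ) 0 1
  rw [← hf1, ← hy₁] at a1 a2 a3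
  rw [← hf2, ← hy₂] at b1 b2 b3
  -- the Wronskian
  have hW : y₁ L * deriv y₂ L - deriv y₁ L * y₂ L = 1 := by
    have h1 : ∀ s, HasDerivAt (fun s => y₁ s * deriv y₂ s - deriv y₁ s * y₂ s) 0 s := by
      intro s
      have h2 := ((a1.1 s).mul (b1.2 s)).sub ((a1.2 s).mul (b1.1 s))
      have h3 : deriv y₁ s * deriv y₂ s + y₁ s * ((((V s : ℝ) : ℂ) - E) * y₂ s) -
          ((((V s : ℝ) : ℂ) - E) * y₁ s * y₂ s + deriv y₁ s * deriv y₂ s) = 0 := by ring
      rw [h3] at h2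
      exact h2
    have h4 := is_const_of_deriv_eq_zero (f := fun s => y₁ s * deriv y₂ s - deriv y₁ s * y₂ s)
      (fun s => (h1 s).differentiableAt) (fun s => (h1 s).deriv) L 0
    change y₁ L * deriv y₂ L - deriv y₁ L * y₂ L = y₁ 0 * deriv y₂ 0 - deriv y₁ 0 * y₂ 0 at h4
    rw [h4, a2, a3, b2, b3]
    ring
  have htr : y₁ L + deriv y₂ L = 0 := by
    unfold disc at hd
    rw [← hy₁, ← hy₂] at hd
    exact hd
  -- the eigenvector
  obtain ⟨v, hv, hMv⟩ := (Matrix.exists_mulVec_eq_zero_iff (M := !![y₁ L - Complex.I, y₂ L;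
    deriv y₁ L, deriv y₂ L - Complex.I])).2 (by
      rw [Matrix.det_fin_two_of]
      have h1 : (y₁ L - Complex.I) * (deriv y₂ L - Complex.I) - y₂ L * deriv y₁ L =
          (y₁ L * deriv y₂ L - deriv y₁ L * y₂ L) - Complex.I * (y₁ L + deriv y₂ L) +
            Complex.I * Complex.I := by ring
      rw [h1, hW, htr, Complex.I_mul_I]
      ring)
  obtain ⟨α, hα⟩ : ∃ α : ℂ, α = v 0 := ⟨_, rfl⟩
  obtain ⟨β, hβ⟩ : ∃ β : ℂ, β = v 1 := ⟨_, rfl⟩
  have e1 : (y₁ L - Complex.I) * α + y₂ L * β = 0 := by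
    have h1 := congrFun hMv 0
    simp [Matrix.mulVec, dotProduct, Fin.sum_univ_two] at h1
    rw [hα, hβ]
    exact h1
  have e2 : deriv y₁ L * α + (deriv y₂ L - Complex.I) * β = 0 := by
    have h1 := congrFun hMv 1
    simp [Matrix.mulVec, dotProduct, Fin.sum_univ_two] at h1
    rw [hα, hβ]
    exact h1
  obtain ⟨c1, c2⟩ := isSol_comb a1 b1 α β
  obtain ⟨u, hu⟩ : ∃ u : ℝ → ℂ, u = fun s => α * y₁ s + β * y₂ s := ⟨_, rfl⟩
  rw [← hu] at c1 c2
  have u0 : u 0 = α := by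
    rw [hu]
    change α * y₁ 0 + β * y₂ 0 = α
    rw [a2, b2]
    ring
  have u0' : deriv u 0 = β := by
    rw [(c1 0).deriv, a3, b3]
    ring
  have hqp : ∀ s, u (s + L) = Complex.I * u s := by
    obtain ⟨d1, d2⟩ := isSol_shift hVp c2
    obtain ⟨z1, z2⟩ := isSol_comb d2 c2 1 (-Complex.I)
    intro s
    have h1 := uni V hV.continuous (E : ℂ) _ z2 s
    have h2 : (1 : ℂ) * u (0 + L) + -Complex.I * u 0 = 0 := by
      rw [zero_add, u0, hu]
      change 1 * (α * y₁ L + β * y₂ L) + -Complex.I * α = 0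
      linear_combination e1
    have h3 : deriv (fun s => (1 : ℂ) * u (s + L) + -Complex.I * u s) 0 = 0 := by
      rw [(z1 0).deriv, (d1 0).deriv, u0', zero_add, (c1 L).deriv]
      linear_combination e2
    rw [h3] at h1
    change (1 : ℂ) * u (s + L) + -Complex.I * u s =
      ((1 : ℂ) * u (0 + L) + -Complex.I * u 0) * sol V (E : ℂ) f1 s +
        0 * sol V (E : ℂ) f2 s at h1
    rw [h2] at h1
    linear_combination h1
  refine ⟨u, ⟨smooth_of_isSol hV c2, hqp⟩, ?_, c2⟩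
  by_contra hcon
  push Not at hcon
  apply hv
  have hαβ : α = 0 ∧ β = 0 := by
    refine ⟨by rw [← u0]; exact hcon 0, ?_⟩
    have h1 : u = fun _ => 0 := funext hcon
    rw [← u0', h1]
    simp
  funext i
  fin_cases i
  · change v 0 = 0
    rw [← hα]
    exact hαβ.1
  · change v 1 = 0
    rw [← hβ]
    exact hαβ.2

end Pool.Agent.KACG.H65
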